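import Pool.Agent.Helper10.CR.Goals2

/-!
Project CR, packet CR-AX1: the classes of cases W and I are axiomatized
-/

universe u

namespace Pool.Agent.Helper17.CR

open Pool.Agent.Helper10.CR

variable {k : Type u} [Field k] {N : ℕ}

theorem ax_single (A : Ax k N) : Axiomatized (fun X => A.Holds X) :=
  ⟨{A}, Set.finite_singleton A, fun X => by simp⟩

theorem ax_and {P Q : RS k N → Prop} (hP : Axiomatized P) (hQ : Axiomatized Q) :
    Axiomatized (fun X => P X ∧ Q X) := by
  obtain ⟨A, hA, h1⟩ := hP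
  obtain ⟨B, hB, h2⟩ := hQ
  refine ⟨A ∪ B, hA.union hB, fun X => ?_⟩
  show (P X ∧ Q X) ↔ _
  rw [h1, h2]
  constructor
  · rintro ⟨h3, h4⟩ C (hC | hC)
    · exact h3 C hC
    · exact h4 C hC
  · intro h
    exact ⟨fun C hC => h C (Or.inl hC), fun C hC => h C (Or.inr hC)⟩

theorem ax_congr {P Q : RS k N → Prop} (h : ∀ X, P X ↔ Q X) (hQ : Axiomatized Q) :
    Axiomatized P := by
  obtain ⟨A, hA, h1⟩ := hQ
  exact ⟨A, hA, fun X => (h X).trans (h1 X)⟩

/-- the axiom of case W -/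
def aW (k : Type u) [Field k] : Ax k 3 where
  p := 2
  m := 0
  r := 1
  c := ![![1, 0, 0], ![0, 0, 1]]
  d := ![![0, 1, 0]]
  e := fun _ l => Fin.elim0 l

theorem aW_holds (X : RS k 3) :
    (aW k).Holds X ↔ ∀ w ∈ X.Rel, w 0 = 0 → w 2 = 0 → w 1 = 0 := by
  constructor
  · intro h w hw h0 h2
    obtain ⟨w', -, h3⟩ := h w hw (by
      intro i
      change Fin 2 at i
      fin_cases i
      · simp [aW, Fin.sum_univ_succ, h0]
      · simp [aW, Fin.sum_univ_succ, h2])
    have := h3 (0 : Fin 1)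
    simpa [aW, Fin.sum_univ_succ] using this
  · intro h w hw h0
    have e0 := h0 (0 : Fin 2)
    have e1 := h0 (1 : Fin 2)
    simp [aW, Fin.sum_univ_succ] at e0 e1
    have := h w hw e0 e1
    refine ⟨fun l => Fin.elim0 l, fun l => Fin.elim0 l, ?_⟩
    intro i
    change Fin 1 at i
    fin_cases i
    simp [aW, Fin.sum_univ_succ, this]

/-- hypothesis `w 0 = 0`, conclusion `w 1 = 0` -/
def aInj (k : Type u) [Field k] : Ax k 4 where
  p := 1
  m := 0
  r := 1
  c := ![![1, 0, 0, 0]]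
  d := ![![0, 1, 0, 0]]
  e := fun _ l => Fin.elim0 l

theorem aInj_holds (X : RS k 4) :
    (aInj k).Holds X ↔ ∀ w ∈ X.Rel, w 0 = 0 → w 1 = 0 := by
  constructor
  · intro h w hw h0
    obtain ⟨w', -, h3⟩ := h w hw (by
      intro i
      change Fin 1 at i
      fin_cases i
      simp [aInj, Fin.sum_univ_succ, h0])
    have := h3 (0 : Fin 1)
    simpa [aInj, Fin.sum_univ_succ] using this
  · intro h w hw h0
    have e0 := h0 (0 : Fin 1)
    simp [aInj, Fin.sum_univ_succ] at e0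
    have := h w hw e0
    refine ⟨fun l => Fin.elim0 l, fun l => Fin.elim0 l, ?_⟩
    intro i
    change Fin 1 at i
    fin_cases i
    simp [aInj, Fin.sum_univ_succ, this]

/-- `w'` has the coordinates `∑ j, M i j w_j` -/
def aEq (M : Fin 4 → Fin 4 → k) : Ax k 4 where
  p := 0
  m := 1
  r := 4
  c := Fin.elim0
  d := M
  e := fun i _ j => if i = j then -1 else 0

theorem aEq_holds (M : Fin 4 → Fin 4 → k) (X : RS k 4) :
    (aEq M).Holds X ↔ ∀ w ∈ X.Rel, (fun i => ∑ j, M i j • w j) ∈ X.Rel := by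
  constructor
  · intro h w hw
    obtain ⟨w', h1, h3⟩ : ∃ w' : Fin 1 → Fin 4 → X.V, (∀ l, w' l ∈ X.Rel) ∧
        ∀ i : Fin 4, ∑ j, M i j • w j + ∑ l : Fin 1, ∑ j : Fin 4,
          (if i = j then (-1 : k) else 0) • w' l j = 0 := h w hw (fun i => Fin.elim0 i)
    have h4 : (fun i => ∑ j, M i j • w j) = w' 0 := by
      funext i
      have h5 := h3 i
      have h6 : ∑ l : Fin 1, ∑ j : Fin 4, (if i = j then (-1 : k) else 0) • w' l j =
          - w' 0 i := by
        rw [Fin.sum_univ_one]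
        simp
      rw [h6, ← sub_eq_add_neg, sub_eq_zero] at h5
      exact h5
    rw [h4]
    exact h1 0
  · intro h w hw _
    refine ⟨fun _ i => ∑ j, M i j • w j, fun _ => h w hw, fun i => ?_⟩
    change Fin 4 at i
    have h6 : ∑ l : Fin 1, ∑ j : Fin 4,
          (if i = j then (-1 : k) else 0) • (∑ j', M j j' • w j') =
          - ∑ j', M i j' • w j' := by
      rw [Fin.sum_univ_one]
      simp
    show ∑ j, M i j • w j + ∑ l : Fin 1, ∑ j : Fin 4,
          (if i = j then (-1 : k) else 0) • (∑ j', M j j' • w j') = 0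
    rw [h6, add_neg_cancel]

/-- hypothesis `w 2 = 0`, conclusion: there is `w'` with `w' 1 = w 3`, `w' 2 = 0`, `w' 3 = 0` -/
def aXs (k : Type u) [Field k] : Ax k 4 where
  p := 1
  m := 1
  r := 3
  c := ![![0, 0, 1, 0]]
  d := ![![0, 0, 0, 1], 0, 0]
  e := ![fun _ => ![0, -1, 0, 0], fun _ => ![0, 0, -1, 0], fun _ => ![0, 0, 0, -1]]

theorem aXs_holds (X : RS k 4) :
    (aXs k).Holds X ↔ ∀ w ∈ X.Rel, w 2 = 0 → ∃ y, ![y, w 3, 0, 0] ∈ X.Rel := by
  constructor
  · intro h w hw h0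
    obtain ⟨w', h1, h3⟩ := h w hw (by
      intro i
      change Fin 1 at i
      fin_cases i
      simp [aXs, Fin.sum_univ_succ, h0])
    have e0 := h3 (0 : Fin 3)
    have e1 := h3 (1 : Fin 3)
    have e2 := h3 (2 : Fin 3)
    have f0 : w 3 + - (w' (0 : Fin 1) 1) = 0 := by
      simpa [aXs, Fin.sum_univ_succ] using e0
    have f1 : w' (0 : Fin 1) 2 = 0 := by
      simpa [aXs, Fin.sum_univ_succ] using e1
    have f2 : w' (0 : Fin 1) 3 = 0 := by
      simpa [aXs, Fin.sum_univ_succ] using e2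
    refine ⟨w' (0 : Fin 1) 0, ?_⟩
    have h4 : ![w' (0 : Fin 1) 0, w 3, 0, 0] = w' (0 : Fin 1) := by
      funext i
      fin_cases i
      · rfl
      · show w 3 = w' (0 : Fin 1) 1
        rw [← sub_eq_add_neg, sub_eq_zero] at f0
        exact f0
      · exact f1.symm
      · exact f2.symm
    rw [h4]
    exact h1 (0 : Fin 1)
  · intro h w hw h0
    have e0 := h0 (0 : Fin 1)
    simp [aXs, Fin.sum_univ_succ] at e0
    obtain ⟨y, hy⟩ := h w hw e0
    refine ⟨fun _ => ![y, w 3, 0, 0], fun _ => hy, ?_⟩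
    intro i
    change Fin 3 at i
    fin_cases i
    · simp [aXs, Fin.sum_univ_succ]
    · simp [aXs, Fin.sum_univ_succ]
    · simp [aXs, Fin.sum_univ_succ]

theorem pw_iff (X : RS k 3) : PW X ↔ (aW k).Holds X := by
  rw [aW_holds]
  constructor
  · intro h w hw h0 h2
    apply h
    have : ![0, w 1, 0] = w := by
      funext i
      fin_cases i
      · exact h0.symm
      · rfl
      · exact h2.symm
    rw [this]
    exact hw
  · intro h v hv
    exact h _ hv rfl rfl

theorem pi_iff (X : RS k 4) : PI X ↔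
    (aEq ![![(1 : k), 0, 0, 0], ![0, 1, 0, 0], 0, 0]).Holds X ∧ (aInj k).Holds X ∧
    (aEq ![![(0 : k), 0, 1, 0], 0, 0, 0]).Holds X ∧
    (aEq ![0, 0, 0, ![(0 : k), 1, 0, 0]]).Holds X ∧ (aXs k).Holds X := by
  rw [aInj_holds, aXs_holds, aEq_holds, aEq_holds, aEq_holds]
  have e1 : ∀ w : Fin 4 → X.V, (fun i => ∑ j, (![![(1 : k), 0, 0, 0], ![0, 1, 0, 0], 0, 0] :
      Fin 4 → Fin 4 → k) i j • w j) = ![w 0, w 1, 0, 0] := by
    intro w
    funext i
    fin_cases i <;> simp [Fin.sum_univ_succ]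
  have e2 : ∀ w : Fin 4 → X.V, (fun i => ∑ j, (![![(0 : k), 0, 1, 0], 0, 0, 0] :
      Fin 4 → Fin 4 → k) i j • w j) = ![w 2, 0, 0, 0] := by
    intro w
    funext i
    fin_cases i <;> simp [Fin.sum_univ_succ]
  have e3 : ∀ w : Fin 4 → X.V, (fun i => ∑ j, (![0, 0, 0, ![(0 : k), 1, 0, 0]] :
      Fin 4 → Fin 4 → k) i j • w j) = ![0, 0, 0, w 1] := by
    intro w
    funext i
    fin_cases i <;> simp [Fin.sum_univ_succ]
  simp only [e1, e2, e3]
  constructor
  · intro h
    have hd : ∀ w ∈ X.Rel, ![0, 0, w 2, w 3] ∈ X.Rel := by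
      intro w hw
      have h1 := sub_mem hw (h.prod w hw)
      have h2 : w - ![w 0, w 1, 0, 0] = ![0, 0, w 2, w 3] := by
        funext i
        fin_cases i <;> simp
      rwa [h2] at h1
    refine ⟨h.prod, ?_, ?_, ?_, ?_⟩
    · intro w hw h0
      apply h.inj
      have := h.prod w hw
      rwa [h0] at this
    · intro w hw
      exact h.xs _ _ (hd w hw)
    · intro w hw
      exact h.sx _ _ (h.prod w hw)
    · intro w hw h2
      apply h.xs'
      have := hd w hw
      rwa [h2] at this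
  · rintro ⟨h1, h2, h3, h4, h5⟩
    refine ⟨h1, ?_, ?_, ?_, ?_⟩
    · intro v hv
      exact h2 _ hv rfl
    · intro y s hys
      exact h3 _ hys
    · intro y s hys
      exact h4 _ hys
    · intro s hs
      exact h5 _ hs rfl

theorem goalAx1 : GoalAx1.{u} := by
  intro k _
  refine ⟨ax_congr pw_iff (ax_single _), ax_congr pi_iff ?_⟩
  exact ax_and (ax_single _) (ax_and (ax_single _) (ax_and (ax_single _)
    (ax_and (ax_single _) (ax_single _))))

end Pool.Agent.Helper17.CR
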