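import Pool.Agent.Helper48.CR.Goals
import Pool.Agent.Helper56.PrimeAsymp

/-!
# Packet ROUGH: integers up to `c u ^ 2` without prime factors `≤ η u`
-/

set_option autoImplicit false

open Finset Filter Topology

namespace Pool.Agent.Helper17.CR

open Pool.Agent.Helper48.CR

/-- primes up to `N` -/
noncomputable def prs (N : ℕ) : Finset ℕ := (Finset.range (N + 1)).filter Nat.Prime

lemma prs_card (N : ℕ) : (prs N).card = Nat.primeCounting N := by
  unfold prs
  rw [Nat.primeCounting, Nat.primeCounting', Nat.count_eq_card_filter_range]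

lemma mem_prs {N p : ℕ} : p ∈ prs N ↔ p ≤ N ∧ p.Prime := by
  unfold prs
  rw [Finset.mem_filter, Finset.mem_range]
  constructor
  · rintro ⟨h1, h2⟩; exact ⟨by omega, h2⟩
  · rintro ⟨h1, h2⟩; exact ⟨by omega, h2⟩

/-- combinatorial part -/
lemma rough_subset {c η u : ℝ} (hc : 0 < c) (hη : 0 < η) (hu : 0 < u)
    (hbig : c * u ^ 2 < (η * u) ^ 3) {Y z : ℕ} (hY : (Y : ℝ) ≤ c * u ^ 2) (hz : η * u ≤ z) :
    rough z Y ⊆ prs ⌊c * u ^ 2⌋₊ ∪
      (prs ⌊Real.sqrt c * u⌋₊ ×ˢ prs ⌊c / η * u⌋₊).image (fun q => q.1 * q.2) := by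
  classical
  intro m hm
  unfold rough at hm
  rw [Finset.mem_filter, Finset.mem_Icc] at hm
  obtain ⟨⟨hm2, hmY⟩, hmp⟩ := hm
  have hmYr : (m : ℝ) ≤ c * u ^ 2 := le_trans (by exact_mod_cast hmY) hY
  rw [Finset.mem_union]
  by_cases hp : m.Prime
  · left
    rw [mem_prs]
    exact ⟨Nat.le_floor hmYr, hp⟩
  · right
    rw [Finset.mem_image]
    have hm1 : m ≠ 1 := by omega
    have hq : (m.minFac).Prime := Nat.minFac_prime hm1
    have hqd : m.minFac ∣ m := Nat.minFac_dvd m
    obtain ⟨k, hk⟩ := hqd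
    have hqz : z < m.minFac := by
      by_contra hcon
      exact hmp _ hq (by omega) (Nat.minFac_dvd m)
    have hqsq : m.minFac ^ 2 ≤ m := Nat.minFac_sq_le_self (by omega) hp
    have hqpos : 0 < m.minFac := hq.pos
    have hkge : m.minFac ≤ k := by
      by_contra hcon
      have h1 : k < m.minFac := by omega
      have h2 : m.minFac * k < m.minFac * m.minFac := Nat.mul_lt_mul_of_pos_left h1 hqpos
      nlinarith
    have hqr : η * u < (m.minFac : ℝ) := lt_of_le_of_lt hz (by exact_mod_cast hqz)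
    have hηu : 0 < η * u := mul_pos hη hu
    have hk2 : 2 ≤ k := le_trans hq.two_le hkge
    have hkp : k.Prime := by
      by_contra hkn
      have hk1 : k ≠ 1 := by omega
      have hr : (k.minFac).Prime := Nat.minFac_prime hk1
      have hrd : k.minFac ∣ m := dvd_trans (Nat.minFac_dvd k) ⟨m.minFac, by rw [mul_comm]; exact hk⟩
      have hrz : z < k.minFac := by
        by_contra hcon
        exact hmp _ hr (by omega) hrd
      have hrsq : k.minFac ^ 2 ≤ k := Nat.minFac_sq_le_self (by omega) hkn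
      have hrr : η * u < (k.minFac : ℝ) := lt_of_le_of_lt hz (by exact_mod_cast hrz)
      have hmr : (m : ℝ) = (m.minFac : ℝ) * (k : ℝ) := by exact_mod_cast hk
      have hrsqr : ((k.minFac : ℝ)) ^ 2 ≤ (k : ℝ) := by exact_mod_cast hrsq
      have h1 : (η * u) ^ 2 ≤ ((k.minFac : ℝ)) ^ 2 :=
        pow_le_pow_left₀ hηu.le hrr.le 2
      have h2 : (η * u) * (η * u) ^ 2 ≤ (m.minFac : ℝ) * (k : ℝ) :=
        mul_le_mul hqr.le (h1.trans hrsqr) (by positivity) (by positivity)
      have h3 : (η * u) ^ 3 ≤ (m : ℝ) := by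
        rw [hmr]
        calc (η * u) ^ 3 = (η * u) * (η * u) ^ 2 := by ring
          _ ≤ _ := h2
      linarith
    refine ⟨(m.minFac, k), ?_, hk.symm⟩
    rw [Finset.mem_product, mem_prs, mem_prs]
    have hmr : (m : ℝ) = (m.minFac : ℝ) * (k : ℝ) := by exact_mod_cast hk
    refine ⟨⟨?_, hq⟩, ⟨?_, hkp⟩⟩
    · apply Nat.le_floor
      have h1 : ((m.minFac : ℝ)) ^ 2 ≤ (m : ℝ) := by exact_mod_cast hqsq
      have h2 : ((m.minFac : ℝ)) ^ 2 ≤ (Real.sqrt c * u) ^ 2 := by
        rw [mul_pow, Real.sq_sqrt hc.le]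
        linarith
      exact (pow_le_pow_iff_left₀ (by positivity) (by positivity) two_ne_zero).mp h2
    · apply Nat.le_floor
      have h1 : (η * u) * (k : ℝ) ≤ c * u ^ 2 := by
        calc (η * u) * (k : ℝ) ≤ (m.minFac : ℝ) * (k : ℝ) :=
              mul_le_mul_of_nonneg_right hqr.le (by positivity)
          _ = (m : ℝ) := hmr.symm
          _ ≤ _ := hmYr
      have h2 : (k : ℝ) ≤ c * u ^ 2 / (η * u) := by
        rw [le_div_iff₀ hηu]
        linarith [h1, mul_comm (k : ℝ) (η * u)]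
      calc (k : ℝ) ≤ c * u ^ 2 / (η * u) := h2
        _ = c / η * u := by field_simp

lemma rough_card_le {c η u : ℝ} (hc : 0 < c) (hη : 0 < η) (hu : 0 < u)
    (hbig : c * u ^ 2 < (η * u) ^ 3) {Y z : ℕ} (hY : (Y : ℝ) ≤ c * u ^ 2) (hz : η * u ≤ z) :
    ((rough z Y).card : ℝ) ≤ (Nat.primeCounting ⌊c * u ^ 2⌋₊ : ℝ) +
      (Nat.primeCounting ⌊Real.sqrt c * u⌋₊ : ℝ) * (Nat.primeCounting ⌊c / η * u⌋₊ : ℝ) := by
  classical
  have h := Finset.card_le_card (rough_subset hc hη hu hbig hY hz)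
  have h2 := Finset.card_union_le (prs ⌊c * u ^ 2⌋₊)
      ((prs ⌊Real.sqrt c * u⌋₊ ×ˢ prs ⌊c / η * u⌋₊).image (fun q => q.1 * q.2))
  have h3 := Finset.card_image_le (s := prs ⌊Real.sqrt c * u⌋₊ ×ˢ prs ⌊c / η * u⌋₊)
      (f := fun q : ℕ × ℕ => q.1 * q.2)
  rw [Finset.card_product, prs_card, prs_card] at h3
  rw [prs_card] at h2
  have h4 : (rough z Y).card ≤ Nat.primeCounting ⌊c * u ^ 2⌋₊ +
      Nat.primeCounting ⌊Real.sqrt c * u⌋₊ * Nat.primeCounting ⌊c / η * u⌋₊ := by omega
  exact_mod_cast h4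

/-- `π(a u) log u / u → a` -/
lemma pi_lin {a : ℝ} (ha : 0 < a) :
    Tendsto (fun u : ℝ => (Nat.primeCounting ⌊a * u⌋₊ : ℝ) * Real.log u / u) atTop (𝓝 a) := by
  have hau : Tendsto (fun u : ℝ => a * u) atTop atTop :=
    Tendsto.const_mul_atTop ha tendsto_id
  have h1 := Helper56.pi_mul_log_div_tendsto.comp hau
  have h2 : Tendsto (fun u : ℝ => Real.log a / Real.log u) atTop (𝓝 0) :=
    Tendsto.div_atTop tendsto_const_nhds Real.tendsto_log_atTop
  have h3 : Tendsto (fun u : ℝ => 1 + Real.log a / Real.log u) atTop (𝓝 1) := by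
    simpa using tendsto_const_nhds.add h2
  have h4 : Tendsto (fun u : ℝ => a * (((Nat.primeCounting ⌊a * u⌋₊ : ℝ) * Real.log (a * u) /
      (a * u)) / (1 + Real.log a / Real.log u))) atTop (𝓝 (a * (1 / 1))) := by
    apply Tendsto.const_mul
    exact Tendsto.div h1 h3 one_ne_zero
  simp only [div_one, mul_one] at h4
  refine h4.congr' ?_
  filter_upwards [eventually_gt_atTop 1, Real.tendsto_log_atTop.eventually_gt_atTop
    (|Real.log a|)] with u hu hl
  have hlu : 0 < Real.log u := Real.log_pos hu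
  have hupos : 0 < u := by linarith
  have hlau : Real.log (a * u) = Real.log a + Real.log u := Real.log_mul ha.ne' hupos.ne'
  have hpos : 0 < Real.log a + Real.log u := by
    have := neg_abs_le (Real.log a)
    linarith
  rw [hlau]
  have h5 : 1 + Real.log a / Real.log u = (Real.log a + Real.log u) / Real.log u := by
    field_simp
    ring
  rw [h5]
  field_simp

/-- `π(c u ^ 2) (2 log u) / (c u ^ 2) → 1` -/
lemma pi_quad {c : ℝ} (hc : 0 < c) :
    Tendsto (fun u : ℝ => (Nat.primeCounting ⌊c * u ^ 2⌋₊ : ℝ) * (2 * Real.log u) /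
      (c * u ^ 2)) atTop (𝓝 1) := by
  have hau : Tendsto (fun u : ℝ => c * u ^ 2) atTop atTop :=
    Tendsto.const_mul_atTop hc (tendsto_pow_atTop two_ne_zero)
  have h1 := Helper56.pi_mul_log_div_tendsto.comp hau
  have h2 : Tendsto (fun u : ℝ => (Real.log c / 2) / Real.log u) atTop (𝓝 0) :=
    Tendsto.div_atTop tendsto_const_nhds Real.tendsto_log_atTop
  have h3 : Tendsto (fun u : ℝ => 1 + (Real.log c / 2) / Real.log u) atTop (𝓝 1) := by
    simpa using tendsto_const_nhds.add h2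
  have h4 := Tendsto.div h1 h3 one_ne_zero
  simp only [div_one] at h4
  refine h4.congr' ?_
  filter_upwards [eventually_gt_atTop 1, Real.tendsto_log_atTop.eventually_gt_atTop
    (|Real.log c|)] with u hu hl
  have hlu : 0 < Real.log u := Real.log_pos hu
  have hupos : 0 < u := by linarith
  have hlau : Real.log (c * u ^ 2) = Real.log c + 2 * Real.log u := by
    rw [Real.log_mul hc.ne' (by positivity), Real.log_pow]
    push_cast
    ring
  have hpos : 0 < Real.log c + 2 * Real.log u := by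
    have := neg_abs_le (Real.log c)
    linarith
  simp only [Function.comp, Pi.div_apply]
  rw [hlau]
  have h5 : 1 + Real.log c / 2 / Real.log u = (Real.log c + 2 * Real.log u) / (2 * Real.log u) := by
    field_simp
    ring
  rw [h5]
  field_simp

theorem rough_card : ROUGHG := by
  intro c η ε hc hη hε
  have hq := pi_quad hc
  have hs : 0 < Real.sqrt c := Real.sqrt_pos.mpr hc
  have hce : 0 < c / η := div_pos hc hη
  have ha := pi_lin hs
  have hb := pi_lin hce
  have hl : Tendsto (fun u : ℝ => (2 / c) / Real.log u) atTop (𝓝 0) :=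
    Tendsto.div_atTop tendsto_const_nhds Real.tendsto_log_atTop
  have hprod := (ha.mul hb).mul hl
  have hsum := hq.add hprod
  simp only [mul_zero, add_zero] at hsum
  have hev := hsum.eventually (eventually_lt_nhds (show (1 : ℝ) < 1 + ε by linarith))
  filter_upwards [hev, eventually_gt_atTop 1, eventually_gt_atTop (c / η ^ 3)] with u h1 hu hub
  intro Y z hY hz
  have hupos : 0 < u := by linarith
  have hlu : 0 < Real.log u := Real.log_pos hu
  have hbig : c * u ^ 2 < (η * u) ^ 3 := by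
    have h2 : c < u * η ^ 3 := by
      rwa [div_lt_iff₀ (by positivity)] at hub
    have h3 : c * u ^ 2 < u * η ^ 3 * u ^ 2 := mul_lt_mul_of_pos_right h2 (by positivity)
    calc c * u ^ 2 < u * η ^ 3 * u ^ 2 := h3
      _ = (η * u) ^ 3 := by ring
  refine (rough_card_le hc hη hupos hbig hY hz).trans ?_
  set P := (Nat.primeCounting ⌊c * u ^ 2⌋₊ : ℝ)
  set A := (Nat.primeCounting ⌊Real.sqrt c * u⌋₊ : ℝ)
  set B := (Nat.primeCounting ⌊c / η * u⌋₊ : ℝ)
  have h6 : (P + A * B) * (2 * Real.log u / (c * u ^ 2)) ≤ 1 + ε := by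
    have h7 : (P + A * B) * (2 * Real.log u / (c * u ^ 2)) =
        P * (2 * Real.log u) / (c * u ^ 2) +
          A * Real.log u / u * (B * Real.log u / u) * (2 / c / Real.log u) := by
      field_simp
    rw [h7]
    exact h1.le
  have h8 : 0 < c * u ^ 2 / (2 * Real.log u) := by positivity
  calc P + A * B = (P + A * B) * (2 * Real.log u / (c * u ^ 2)) * (c * u ^ 2 / (2 * Real.log u)) := by
        field_simp
    _ ≤ (1 + ε) * (c * u ^ 2 / (2 * Real.log u)) := mul_le_mul_of_nonneg_right h6 h8.le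

end Pool.Agent.Helper17.CR
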